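import Pool.Agent.W2helper57.AV.Main

set_option autoImplicit false

/-!
# W[1]-hardness of the largest obstacle-avoiding subconfiguration for a fixed finite obstacle set
-/

namespace Pool.Agent.Results.MP_5713c3_lc.AvoidsW1Hard

open Pool.Agent.NPC Pool.Agent.H633R2 Pool.Agent.W2helper57.AV

/-- There is a finite set of obstacles `𝒞` such that

* deciding `k ≤ AVOIDS(𝒞; S)` is W[1]-hard with parameter `k`, already for point sets with integer
  coordinates (written in binary);
* if some Turing machine `M`, given the table of the orientations of all triples of an arbitrary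
  list of `n` distinct points of the real plane, computes `v = AVOIDS(𝒞; S)` in at most
  `f(v) · p(n)` steps, for a computable function `f` and a polynomial `p` (that is, if computing
  `AVOIDS` is fixed-parameter tractable with respect to its natural parameter), then every
  problem in W[1] is fixed-parameter tractable. -/
theorem result : ∃ 𝒞 : Finset (Finset (ℝ × ℝ)),
    W1Hard (fun x : List (ℤ × ℤ) × ℕ => x.2) (fun x => x.2 ≤ AVOIDS 𝒞 (conf x.1)) ∧
    ((∃ (M : Turing.TM2ComputableAux Bool Bool) (f : ℕ → ℕ) (p : Polynomial ℕ),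
        Computable f ∧ ∀ l : List (ℝ × ℝ), l.Nodup →
          TmRuns M (bits (orientTable l)) (bits (AVOIDS 𝒞 (ptSet l)))
            (f (AVOIDS 𝒞 (ptSet l)) * p.eval l.length)) →
      ∀ (α : Type) [TEnc α] (κ : α → ℕ) (P : α → Prop), InW1 κ P → IsFpt κ P) := by
  obtain ⟨𝒞, h𝒞⟩ := exists_obstacles
  refine ⟨𝒞, w1hard (𝒞 := 𝒞) h𝒞, fun hM α _ κ P hP => ?_⟩
  exact IsFpt.of_reduces hP (clique_fpt (𝒞 := 𝒞) h𝒞 hM)

end Pool.Agent.Results.MP_5713c3_lc.AvoidsW1Hard
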